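import Pool.Agent.Helper30.GA.Defs
import Pool.Agent.Helper69.LZ.Twist

/-!
# Two simple words on `n + 1` strands (GA4)

The colours `g_j` of the strands: one crossing replaces `(g_a, g_(a+1))` by
`(g_(a+1), t g_a + (1 - t) g_(a+1))`.
-/

set_option autoImplicit false

namespace Pool.Agent.Helper6.GA

open Pool.Agent.Helper69.LZ Pool.Agent.Helper30.GA

theorem gg_sg (t : ℂ) (a : ℕ) (L : ℕ → ℂ) (j : ℕ) :
    gg t (sg t (a + 1) L) j = if j = a then gg t L (a + 1)
      else if j = a + 1 then t * gg t L a + (1 - t) * gg t L (a + 1) else gg t L j := by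
  unfold gg sg
  rw [Nat.add_sub_cancel]
  by_cases h1 : j = a
  · subst h1
    rw [if_pos rfl, Function.update_self, Function.update_of_ne (by omega)]
    ring
  · rw [if_neg h1]
    by_cases h2 : j = a + 1
    · subst h2
      rw [if_pos rfl, Function.update_self, Function.update_of_ne (by omega)]
      ring
    · rw [if_neg h2, Function.update_of_ne (by omega), Function.update_of_ne (by omega)]

theorem gg_vb (t : ℂ) (k m : ℕ) (hm : m ≤ k + 1) (L : ℕ → ℂ) (j : ℕ) :
    gg t (run t (vb k m) L) j = if j + m < k + 1 then gg t L j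
      else if j + m = k + 1 then gg t L (k + 1)
      else if j ≤ k + 1 then t * gg t L (j - 1) + (1 - t) * gg t L (k + 1) else gg t L j := by
  induction m generalizing j with
  | zero =>
    rw [vb_zero, run_nil]
    split_ifs with h1 h2 h3
    · rfl
    · rw [show j = k + 1 by omega]
    · omega
    · rfl
  | succ m ih =>
    rw [vb_succ, run_append, run_cons, run_nil, gg_sg, ih (by omega), ih (by omega), ih (by omega)]
    by_cases h1 : j = k - m
    · subst h1
      rw [if_pos rfl, if_neg (by omega), if_pos (by omega), if_neg (by omega), if_pos (by omega)]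
    · rw [if_neg h1]
      by_cases h2 : j = k - m + 1
      · subst h2
        rw [if_pos rfl, if_pos (by omega), if_neg (by omega), if_pos (by omega),
          if_neg (by omega), if_neg (by omega), if_pos (by omega), Nat.add_sub_cancel]
      · rw [if_neg h2]
        split_ifs <;> first | rfl | (exfalso; omega)

/-- One simple word. -/
theorem pass {t : ℂ} (c : ℕ → ℕ) (hc : ∀ k, c k ≤ k + 1) (b : ℕ → ℝ) (B : ℕ → ℕ → ℝ)
    (h00 : b 0 ≤ B 0 0) (hmono : ∀ i k, i ≤ k → B i k ≤ B i (k + 1))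
    (hnew : ∀ i k, i ≤ k → b k ≤ B i k)
    (hmix : ∀ i k, i ≤ k → ‖t‖ * B i k + ‖1 - t‖ * b (k + 1) ≤ B (i + 1) (k + 1))
    (n : ℕ) (L : ℕ → ℂ) (hL : ∀ j, j < n + 1 → ‖gg t L j‖ ≤ b j) (k : ℕ) (hk : k ≤ n) :
    (∀ i, i ≤ k → ‖gg t (run t (sw k c) L) i‖ ≤ B i k) ∧
      ∀ i, k < i → gg t (run t (sw k c) L) i = gg t L i := by
  induction k with
  | zero =>
    rw [sw_zero, run_nil]
    refine ⟨fun i hi => ?_, fun i _ => rfl⟩
    obtain rfl : i = 0 := by omega
    exact (hL 0 (by omega)).trans h00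
  | succ k ih =>
    obtain ⟨i1, i2⟩ := ih (by omega)
    have hG : ‖gg t (run t (sw k c) L) (k + 1)‖ ≤ b (k + 1) := by
      rw [i2 (k + 1) (by omega)]
      exact hL (k + 1) (by omega)
    rw [sw_succ, run_append]
    refine ⟨fun i hi => ?_, fun i hi => ?_⟩
    · rw [gg_vb t k (c k) (hc k)]
      split_ifs with h1 h2
      · exact (i1 i (by omega)).trans (hmono i k (by omega))
      · exact hG.trans (hnew i (k + 1) hi)
      · have hck := hc k
        obtain ⟨l, rfl⟩ : ∃ l, i = l + 1 := ⟨i - 1, by omega⟩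
        rw [Nat.add_sub_cancel]
        refine (norm_add_le _ _).trans ?_
        rw [norm_mul, norm_mul]
        refine le_trans ?_ (hmix l k (by omega))
        exact add_le_add (mul_le_mul_of_nonneg_left (i1 l (by omega)) (norm_nonneg _))
          (mul_le_mul_of_nonneg_left hG (norm_nonneg _))
    · rw [gg_vb t k (c k) (hc k)]
      split_ifs with h1 h2 h3
      · exact i2 i (by omega)
      · exfalso
        omega
      · exfalso
        omega
      · exact i2 i (by omega)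

theorem one_sub_pow_ge {ρ : ℝ} (h0 : 0 ≤ ρ) (h1 : ρ ≤ 1) (i k : ℕ) (hik : i ≤ k) :
    (1 - ρ) * i * ρ ^ k ≤ 1 - ρ ^ i := by
  have hs : (∑ j ∈ Finset.range i, ρ ^ j) * (ρ - 1) = ρ ^ i - 1 := geom_sum_mul ρ i
  have h2 : (i : ℝ) * ρ ^ k ≤ ∑ j ∈ Finset.range i, ρ ^ j := by
    calc (i : ℝ) * ρ ^ k = ∑ _j ∈ Finset.range i, ρ ^ k := by
          rw [Finset.sum_const, Finset.card_range, nsmul_eq_mul]
      _ ≤ ∑ j ∈ Finset.range i, ρ ^ j := by
          refine Finset.sum_le_sum fun j hj => ?_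
          have := Finset.mem_range.1 hj
          exact pow_le_pow_of_le_one h0 h1 (by omega)
  nlinarith [mul_le_mul_of_nonneg_left h2 (sub_nonneg.2 h1)]

/-- **GA4.** Two simple words enlarge the largest colour at most by the factor
`4 - 3 ρ ^ n - 2 (1 - ρ) n ρ ^ n`. -/
theorem two_pass {t : ℂ} (ht : ‖t‖ < 1) (ht2 : ‖1 - t‖ ≤ 2 * (1 - ‖t‖)) {n : ℕ} {c c' : ℕ → ℕ}
    (hc : ∀ k, c k ≤ k + 1) (hc' : ∀ k, c' k ≤ k + 1) {L : ℕ → ℂ} {M : ℝ}
    (hL : ∀ j, j < n + 1 → ‖gg t L j‖ ≤ M) :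
    ∀ j, j < n + 1 → ‖gg t (run t (sw n c ++ sw n c') L) j‖ ≤
      (4 - 3 * ‖t‖ ^ n - 2 * (1 - ‖t‖) * n * ‖t‖ ^ n) * M := by
  set ρ := ‖t‖ with hρ
  have h0 : 0 ≤ ρ := norm_nonneg _
  have h1 : ρ ≤ 1 := ht.le
  have hM : 0 ≤ M := (norm_nonneg _).trans (hL 0 (by omega))
  have hpow : ∀ i : ℕ, 0 ≤ ρ ^ i ∧ ρ ^ i ≤ 1 := fun i => ⟨pow_nonneg h0 i, pow_le_one₀ h0 h1⟩
  -- the first word
  have p1 := pass (t := t) c hc (fun _ => M) (fun i _ => (2 - ρ ^ i) * M)
    (by simp only [pow_zero]; linarith) (fun i k _ => le_rfl)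
    (fun i k _ => by
      have := mul_nonneg (sub_nonneg.2 (hpow i).2) hM
      nlinarith)
    (fun i k _ => by
      have e1 : ‖1 - t‖ * M ≤ 2 * (1 - ρ) * M := mul_le_mul_of_nonneg_right ht2 hM
      have e2 : ρ ^ (i + 1) = ρ * ρ ^ i := by rw [pow_succ]; ring
      rw [← hρ, e2]
      nlinarith) n L hL n le_rfl
  set L1 := run t (sw n c) L with hL1
  have hL1b : ∀ j, j < n + 1 → ‖gg t L1 j‖ ≤ (2 - ρ ^ j) * M := fun j hj => p1.1 j (by omega)
  -- the second word
  have p2 := pass (t := t) c' hc' (fun i => (2 - ρ ^ i) * M)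
    (fun i k => (4 - 2 * ρ ^ i - ρ ^ k - 2 * (1 - ρ) * i * ρ ^ k) * M)
    (by simp only [pow_zero, Nat.cast_zero]; linarith)
    (fun i k _ => by
      refine mul_le_mul_of_nonneg_right ?_ hM
      have e2 : ρ ^ (k + 1) = ρ * ρ ^ k := by rw [pow_succ]; ring
      have e3 : ρ ^ (k + 1) ≤ ρ ^ k := by
        rw [e2]
        nlinarith [(hpow k).1]
      have e4 : 0 ≤ 2 * (1 - ρ) * (i : ℝ) := by
        have : (0 : ℝ) ≤ i := Nat.cast_nonneg i
        nlinarith
      nlinarith [mul_le_mul_of_nonneg_left e3 e4])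
    (fun i k hik => by
      refine mul_le_mul_of_nonneg_right ?_ hM
      have := one_sub_pow_ge h0 h1 i k hik
      nlinarith)
    (fun i k _ => by
      have e1 : ‖1 - t‖ * ((2 - ρ ^ (k + 1)) * M) ≤ 2 * (1 - ρ) * ((2 - ρ ^ (k + 1)) * M) :=
        mul_le_mul_of_nonneg_right ht2 (mul_nonneg (by linarith [(hpow (k + 1)).2]) hM)
      refine (add_le_add_right e1 _).trans (le_of_eq ?_)
      rw [← hρ]
      push_cast
      rw [pow_succ ρ i, pow_succ ρ k]
      ring) n L1 hL1b n le_rfl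
  intro j hj
  rw [run_append]
  refine (p2.1 j (by omega)).trans (mul_le_mul_of_nonneg_right ?_ hM)
  -- the bound increases with the position
  obtain ⟨d, rfl⟩ : ∃ d, n = j + d := ⟨n - j, by omega⟩
  have e5 := one_sub_pow_ge h0 h1 d d le_rfl
  have e6 : ρ ^ (j + d) = ρ ^ j * ρ ^ d := pow_add _ _ _
  have e7 := mul_le_mul_of_nonneg_left e5 (hpow j).1
  push_cast
  rw [e6]
  nlinarith
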